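import Mathlib

/-!
# MP_298761_ag: the variational Hodge conjecture and finite monodromy

`Bases`: smooth complex varieties and their complex points (any two points of a complex variety
are in the image of a smooth connected curve, so Q1 for smooth bases is equivalent to Q1 for all
bases). `Theory`: families over smooth varieties (a smooth proper morphism `X → S` and an
`S`-linear admissible subcategory `C` of `D_perf(X)`), the rational vector spaces
`K₀ᵗᵒᵖ(C_b) ⊗ ℚ`, their subspaces of algebraic classes, and parallel transport.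
-/

set_option autoImplicit false

namespace Pool.Agent.Results.MP_298761_ag.FiniteMonodromy

/-- Smooth complex varieties (integral, so connected), complex points and morphisms. -/
structure Bases where
  /-- the varieties -/
  Obj : Type
  /-- the complex points -/
  Pt : Obj → Type
  /-- morphisms -/
  Mor : Obj → Obj → Type
  /-- the map on complex points -/
  map : ∀ {S T : Obj}, Mor S T → Pt S → Pt T
  /-- quasi-projective varieties -/
  QP : Obj → Prop
  /-- any two points `b`, `c` of `S` are in the image of a smooth connected curve `C → S`; take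
  `C × 𝔸¹ → S` -/
  exists_qp : ∀ (S : Obj) (b c : Pt S), ∃ (S' : Obj) (f : Mor S' S), QP S' ∧
    {p | map f p = b}.Infinite ∧ {p | map f p = c}.Infinite

/-- Isomorphisms of rational vector spaces. -/
abbrev Lin (V W : Type) [AddCommGroup V] [Module ℚ V] [AddCommGroup W] [Module ℚ W] : Type :=
  V ≃ₗ[ℚ] W

/-- The value of an isomorphism at a vector. -/
def Lin.app {V W : Type} [AddCommGroup V] [Module ℚ V] [AddCommGroup W] [Module ℚ W]
    (e : Lin V W) (v : V) : W := e v

/-- Linear maps of rational vector spaces. -/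
abbrev Hom (V W : Type) [AddCommGroup V] [Module ℚ V] [AddCommGroup W] [Module ℚ W] : Type :=
  V →ₗ[ℚ] W

/-- The value of a linear map at a vector. -/
def Hom.app {V W : Type} [AddCommGroup V] [Module ℚ V] [AddCommGroup W] [Module ℚ W]
    (f : Hom V W) (v : V) : W := f v

/-- Linear representations of `G` on the rational vector space `W`. -/
abbrev Rep (G W : Type) [Group G] [AddCommGroup W] [Module ℚ W] : Type := G →* (W →ₗ[ℚ] W)

/-- The action of an element of `G` on a vector. -/
def Rep.act {G W : Type} [Group G] [AddCommGroup W] [Module ℚ W] (ρ : Rep G W) (γ : G) (w : W) :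
    W := ρ γ w

/-- Families over varieties, the cohomology of the fibres, algebraic classes, parallel transport and
base change. -/
structure Families (B : Bases) where
  /-- families over `S`: a smooth proper `X → S` and an `S`-linear admissible subcategory `C` of
  `D_perf(X)` -/
  Fam : B.Obj → Type
  /-- the rational vector space `K₀ᵗᵒᵖ(C_b) ⊗ ℚ` -/
  V : ∀ {S : B.Obj}, Fam S → B.Pt S → Type
  [ab : ∀ {S : B.Obj} (X : Fam S) (b : B.Pt S), AddCommGroup (V X b)]
  [mod : ∀ {S : B.Obj} (X : Fam S) (b : B.Pt S), Module ℚ (V X b)]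
  /-- the subspace of the algebraic classes -/
  Alg : ∀ {S : B.Obj} (X : Fam S) (b : B.Pt S), Submodule ℚ (V X b)
  /-- `Tr X b c g`: `g` is the parallel transport along some path from `b` to `c` -/
  Tr : ∀ {S : B.Obj} (X : Fam S) (b c : B.Pt S), Lin (V X b) (V X c) → Prop
  /-- base change -/
  pull : ∀ {S T : B.Obj}, B.Mor S T → Fam T → Fam S
  /-- the fibre at `p` of the base change along `f` is the fibre at `f p` -/
  iso : ∀ {S T : B.Obj} (f : B.Mor S T) (X : Fam T) {p : B.Pt S} {b : B.Pt T},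
    B.map f p = b → Lin (V (pull f X) p) (V X b)

attribute [instance] Families.ab Families.mod

variable {B : Bases} (D : Families B)

/-- Paths can be composed and reversed, and varieties are connected. -/
structure Paths : Prop where
  tr_refl : ∀ {S : B.Obj} (X : D.Fam S) (b : B.Pt S), D.Tr X b b (LinearEquiv.refl ℚ (D.V X b))
  tr_symm : ∀ {S : B.Obj} (X : D.Fam S) (b c : B.Pt S) (g : Lin (D.V X b) (D.V X c)),
    D.Tr X b c g → D.Tr X c b g.symm
  tr_trans : ∀ {S : B.Obj} (X : D.Fam S) (b c d : B.Pt S) (g : Lin (D.V X b) (D.V X c))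
    (h : Lin (D.V X c) (D.V X d)), D.Tr X b c g → D.Tr X c d h → D.Tr X b d (g.trans h)
  tr_nonempty : ∀ {S : B.Obj} (X : D.Fam S) (b c : B.Pt S), ∃ g, D.Tr X b c g

/-- Base change respects algebraic classes, and the image of a path is a path. -/
structure BaseChange : Prop where
  alg_iso : ∀ {S T : B.Obj} (f : B.Mor S T) (X : D.Fam T) {p : B.Pt S} {b : B.Pt T}
    (h : B.map f p = b) (v : D.V (D.pull f X) p),
    v ∈ D.Alg (D.pull f X) p ↔ (D.iso f X h).app v ∈ D.Alg X b
  tr_iso : ∀ {S T : B.Obj} (f : B.Mor S T) (X : D.Fam T) {p q : B.Pt S} {b c : B.Pt T}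
    (hp : B.map f p = b) (hq : B.map f q = c)
    (g : Lin (D.V (D.pull f X) p) (D.V (D.pull f X) q)), D.Tr (D.pull f X) p q g →
    ∃ g', D.Tr X b c g' ∧ ∀ v, g'.app ((D.iso f X hp).app v) = (D.iso f X hq).app (g.app v)

/-- The orbit of a class under the fundamental group. -/
def orbit {S : B.Obj} (X : D.Fam S) (b : B.Pt S) (v : D.V X b) : Set (D.V X b) :=
  {w | ∃ g, D.Tr X b b g ∧ g.app v = w}

/-- Finite étale covers: if `v` has a finite orbit under the fundamental group of `S` at `b`, then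
it is the image of an invariant class `v'` after base change to a connected finite étale cover `f`,
and the paths from `b` to `c` lift to paths from `p` to the points `q` over `c`. -/
def Covers : Prop :=
  ∀ {S : B.Obj} (X : D.Fam S) (b : B.Pt S) (v : D.V X b), (orbit D X b v).Finite →
    ∃ (S' : B.Obj) (f : B.Mor S' S) (p : B.Pt S') (hp : B.map f p = b) (v' : D.V (D.pull f X) p),
      (D.iso f X hp).app v' = v ∧ (∀ g, D.Tr (D.pull f X) p p g → g.app v' = v') ∧
      ∀ (c : B.Pt S) (g : Lin (D.V X b) (D.V X c)), D.Tr X b c g →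
        ∃ (q : B.Pt S') (hq : B.map f q = c) (g' : Lin (D.V (D.pull f X) p) (D.V (D.pull f X) q)),
          D.Tr (D.pull f X) p q g' ∧ (D.iso f X hq).app (g'.app v') = g.app v

/-- The disjoint union `Y` of `X` and `S`: its fibres are the `X_b` with one more point. -/
def AddPoint : Prop :=
  ∀ {S : B.Obj} (X : D.Fam S), ∃ (Y : D.Fam S) (e : ∀ b, Lin (D.V Y b) (D.V X b × ℚ)),
    (∀ b v, v ∈ D.Alg Y b ↔ ((e b).app v).1 ∈ D.Alg X b) ∧
    ∀ b c g, D.Tr Y b c g → ∃ h, D.Tr X b c h ∧
      ∀ v, (e c).app (g.app v) = (h.app ((e b).app v).1, ((e b).app v).2)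

/-- The transport `g` from the union of the fibres at the points `s i` to the union of the fibres at
the points `t i` moves the points `s i` to the points `t (σ i)` along paths. -/
def Moves {S U : B.Obj} {X : D.Fam S} {I : Type} {s t : I → B.Pt S} {Z : D.Fam U} {b c : B.Pt U}
    (Φ : Lin (D.V Z b) (∀ i, D.V X (s i))) (Ψ : Lin (D.V Z c) (∀ i, D.V X (t i)))
    (g : Lin (D.V Z b) (D.V Z c)) (σ : Equiv.Perm I) : Prop :=
  ∀ i, ∃ h : Lin (D.V X (s i)) (D.V X (t (σ i))),
    D.Tr X (s i) (t (σ i)) h ∧ ∀ u, Ψ.app (g.app u) (σ i) = h.app (Φ.app u i)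

/-- Configurations: let `Γ` be a group of permutations of a finite set `I` and let `S` be
quasi-projective. A configuration is an injective map `s : I → S(ℂ)`, and over the variety
`T = (S^I - diagonals) / Γ`, whose points `b s` are the configurations up to `Γ`, the disjoint unions
of the fibres at the points `s i` form a family `Z`. A path from `b s` to `b t` moves the points
`s i` to the points `t (σ i)` along paths in `S`, for some `σ` in `Γ`, and all `σ` in `Γ` occur. -/
def Configurations : Prop :=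
  ∀ {S : B.Obj} (X : D.Fam S) (I : Type) [Finite I] [Nonempty I] (Γ : Subgroup (Equiv.Perm I)),
    B.QP S → (∃ s : I → B.Pt S, Function.Injective s) →
    ∃ (T : B.Obj) (Z : D.Fam T) (b : (I → B.Pt S) → B.Pt T)
      (Φ : ∀ s, Function.Injective s → Lin (D.V Z (b s)) (∀ i, D.V X (s i))),
      (∀ c, ∃ s, Function.Injective s ∧ b s = c) ∧
      (∀ s t, Function.Injective s → Function.Injective t → b s = b t →
        ∃ σ ∈ Γ, ∀ i, s i = t (σ i)) ∧
      (∀ s hs u, u ∈ D.Alg Z (b s) ↔ ∀ i, (Φ s hs).app u i ∈ D.Alg X (s i)) ∧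
      (∀ s hs t ht g, D.Tr Z (b s) (b t) g → ∃ σ ∈ Γ, Moves D (Φ s hs) (Φ t ht) g σ) ∧
      (∀ s hs t ht, ∀ σ ∈ Γ, ∃ g, D.Tr Z (b s) (b t) g ∧ Moves D (Φ s hs) (Φ t ht) g σ)

/-- Families over varieties, with the elementary facts on them which are used. -/
structure Theory (B : Bases) extends Families B where
  paths : Paths toFamilies
  baseChange : BaseChange toFamilies
  covers : Covers toFamilies
  addPoint : AddPoint toFamilies
  configurations : Configurations toFamilies

/-- A global section of the local system `K₀ᵗᵒᵖ(C/S) ⊗ ℚ`. -/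
structure Flat {S : B.Obj} (X : D.Fam S) where
  /-- the fibres -/
  val : ∀ s : B.Pt S, D.V X s
  flat : ∀ s t g, D.Tr X s t g → g.app (val s) = val t

/-- **Q1**: a global section which is algebraic at one point is algebraic everywhere. -/
def Q1 : Prop := ∀ (S : B.Obj) (X : D.Fam S) (φ : Flat D X) (o s : B.Pt S),
  φ.val o ∈ D.Alg X o → φ.val s ∈ D.Alg X s

/-- The set of the algebraic classes with finite orbits is stable under the fundamental group. -/
def OrbitsStable : Prop := ∀ (S : B.Obj) (X : D.Fam S) (b : B.Pt S) (v : D.V X b),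
  (orbit D X b v).Finite → v ∈ D.Alg X b → ∀ w ∈ orbit D X b v, w ∈ D.Alg X b

/-- The sum over the (finite) orbit of an algebraic class is algebraic. -/
def OrbitSums : Prop := ∀ (S : B.Obj) (X : D.Fam S) (b : B.Pt S) (v : D.V X b)
  (h : (orbit D X b v).Finite), v ∈ D.Alg X b → ∑ w ∈ h.toFinset, w ∈ D.Alg X b

/-- `Pattern m G W ρ K L`: for some family over some `S` the local system `K₀ᵗᵒᵖ(C/S) ⊗ ℚ`
contains the local system with fibre `W` and monodromy the representation `ρ` of `G` (all elements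
of `G` occur); at `m` different points `b i` of `S` the algebraic classes in the fibre `W` are
exactly those in `K i`, and the classes in `W` which are algebraic in all fibres are exactly those
in `L`. -/
def Pattern (m : ℕ) (G W : Type) [Group G] [AddCommGroup W] [Module ℚ W]
    (ρ : Rep G W) (K : Fin m → Submodule ℚ W) (L : Submodule ℚ W) : Prop :=
  ∃ (S : B.Obj) (X : D.Fam S) (b : Fin m → B.Pt S) (f : ∀ i, Hom W (D.V X (b i))),
    Function.Injective b ∧ (∀ i, Function.Injective (f i).app) ∧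
    (∀ i j g, D.Tr X (b i) (b j) g → ∃ γ : G, ∀ w, g.app ((f i).app w) = (f j).app (ρ.act γ w)) ∧
    (∀ i j γ, ∃ g, D.Tr X (b i) (b j) g ∧ ∀ w, g.app ((f i).app w) = (f j).app (ρ.act γ w)) ∧
    (∀ i w, (f i).app w ∈ D.Alg X (b i) ↔ w ∈ K i) ∧
    ∀ i w, (∀ c g, D.Tr X (b i) c g → g.app ((f i).app w) ∈ D.Alg X c) ↔ w ∈ L

/-- `L` is `G`-stable and contained in all `K i`. -/
def Admissible {m : ℕ} {G W : Type} [Group G] [AddCommGroup W] [Module ℚ W]
    (ρ : Rep G W) (K : Fin m → Submodule ℚ W) (L : Submodule ℚ W) : Prop :=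
  (∀ γ, ∀ w ∈ L, ρ.act γ w ∈ L) ∧ ∀ i, L ≤ K i

variable {D} {T : Theory B}

theorem Flat.map {S : B.Obj} {X : T.Fam S} (φ : Flat T.toFamilies X) {s t : B.Pt S}
    {g : T.V X s ≃ₗ[ℚ] T.V X t} (hg : T.Tr X s t g) : g (φ.val s) = φ.val t :=
  φ.flat s t g hg

/-- an invariant class is the value of a global section -/
theorem exists_flat {S : B.Obj} (X : T.Fam S) (b : B.Pt S) (v : T.V X b)
    (hv : ∀ g, T.Tr X b b g → g v = v) :
    ∃ φ : Flat T.toFamilies X, φ.val b = v ∧ ∀ c g, T.Tr X b c g → φ.val c = g v := by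
  choose p hp using fun c => T.paths.tr_nonempty X b c
  have key : ∀ c g, T.Tr X b c g → p c v = g v := by
    intro c g hg
    have h1 := T.paths.tr_trans X b c b _ _ (hp c) (T.paths.tr_symm X b c g hg)
    have h2 := hv _ h1
    rw [LinearEquiv.trans_apply, LinearEquiv.symm_apply_eq] at h2
    exact h2
  refine ⟨⟨fun c => p c v, fun s t g hg => ?_⟩, ?_, key⟩
  · have h1 := T.paths.tr_trans X b s t _ _ (hp s) hg
    have h2 := key t _ h1
    rw [LinearEquiv.trans_apply] at h2
    exact h2.symm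
  · have := key b _ (T.paths.tr_refl X b)
    exact this

/-- base change of a global section -/
def Flat.pull {S S' : B.Obj} {X : T.Fam S} (φ : Flat T.toFamilies X) (f : B.Mor S' S) :
    Flat T.toFamilies (T.pull f X) where
  val p := (T.iso f X rfl).symm (φ.val (B.map f p))
  flat p q g hg := by
    obtain ⟨g', hg', h1⟩ := T.baseChange.tr_iso f X (rfl : B.map f p = B.map f p)
      (rfl : B.map f q = B.map f q) g hg
    have h2 := h1 ((T.iso f X rfl).symm (φ.val (B.map f p)))
    simp only [Lin.app] at h2 ⊢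
    rw [LinearEquiv.apply_symm_apply, φ.map hg'] at h2
    rw [h2, LinearEquiv.symm_apply_apply]

theorem Flat.pull_mem {S S' : B.Obj} {X : T.Fam S} (φ : Flat T.toFamilies X) (f : B.Mor S' S)
    (p : B.Pt S') :
    (φ.pull f).val p ∈ T.Alg (T.pull f X) p ↔ φ.val (B.map f p) ∈ T.Alg X (B.map f p) := by
  rw [T.baseChange.alg_iso f X rfl]
  unfold Flat.pull Lin.app
  rw [LinearEquiv.apply_symm_apply]

/-- the axiom on configurations, unfolded -/
theorem confs (T : Theory B) {S : B.Obj} (X : T.Fam S) (I : Type) [Finite I] [Nonempty I]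
    (Γ : Subgroup (Equiv.Perm I)) (hqp : B.QP S) (hex : Nonempty (I ↪ B.Pt S)) :
    ∃ (U : B.Obj) (Z : T.Fam U) (b : (I ↪ B.Pt S) → B.Pt U)
      (Φ : ∀ s : I ↪ B.Pt S, T.V Z (b s) ≃ₗ[ℚ] (∀ i, T.V X (s i))),
      Function.Surjective b ∧ (∀ s t, b s = b t → ∃ σ ∈ Γ, ∀ i, s i = t (σ i)) ∧
      (∀ s u, u ∈ T.Alg Z (b s) ↔ ∀ i, Φ s u i ∈ T.Alg X (s i)) ∧
      (∀ s t g, T.Tr Z (b s) (b t) g → ∃ σ ∈ Γ, ∃ h : ∀ i, T.V X (s i) ≃ₗ[ℚ] T.V X (t (σ i)),
        (∀ i, T.Tr X (s i) (t (σ i)) (h i)) ∧ ∀ u i, Φ t (g u) (σ i) = h i (Φ s u i)) ∧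
      (∀ s t, ∀ σ ∈ Γ, ∃ g, T.Tr Z (b s) (b t) g ∧ ∃ h : ∀ i, T.V X (s i) ≃ₗ[ℚ] T.V X (t (σ i)),
        (∀ i, T.Tr X (s i) (t (σ i)) (h i)) ∧ ∀ u i, Φ t (g u) (σ i) = h i (Φ s u i)) := by
  obtain ⟨s₀⟩ := hex
  obtain ⟨U, Z, b, Φ, h1, h2, h3, h4, h5⟩ := T.configurations X I Γ hqp ⟨s₀, s₀.injective⟩
  refine ⟨U, Z, fun s => b s, fun s => Φ s s.injective, ?_,
    fun s t hst => h2 s t s.injective t.injective hst, fun s u => h3 s s.injective u, ?_, ?_⟩
  · intro c
    obtain ⟨s, hs, rfl⟩ := h1 c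
    exact ⟨⟨s, hs⟩, rfl⟩
  · intro s t g hg
    obtain ⟨σ, hσ, hm⟩ := h4 s s.injective t t.injective g hg
    choose h hh1 hh2 using hm
    exact ⟨σ, hσ, h, hh1, fun u i => hh2 i u⟩
  · intro s t σ hσ
    obtain ⟨g, hg, hm⟩ := h5 s s.injective t t.injective σ hσ
    choose h hh1 hh2 using hm
    exact ⟨g, hg, h, hh1, fun u i => hh2 i u⟩

/-- a subspace is the kernel of a map to `ℚⁿ`, for all large `n` -/
theorem exists_ker {W : Type} [AddCommGroup W] [Module ℚ W] [FiniteDimensional ℚ W]
    (K : Submodule ℚ W) (n : ℕ) (hn : Module.finrank ℚ W ≤ n) :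
    ∃ L : W →ₗ[ℚ] (Fin n → ℚ), ∀ w, L w = 0 ↔ w ∈ K := by
  have h1 : Module.finrank ℚ (W ⧸ K) ≤ n := (Submodule.finrank_quotient_le K).trans hn
  let β := Module.finBasis ℚ (W ⧸ K)
  let e : (W ⧸ K) →ₗ[ℚ] (Fin n → ℚ) := LinearMap.pi fun k =>
    if h : k.1 < Module.finrank ℚ (W ⧸ K) then β.coord ⟨k.1, h⟩ else 0
  refine ⟨e ∘ₗ K.mkQ, fun w => ?_⟩
  rw [LinearMap.comp_apply]
  constructor
  · intro h
    have h2 : K.mkQ w = 0 := by
      apply β.ext_elem
      intro k
      have h3 := congrFun h ⟨k.1, lt_of_lt_of_le k.2 h1⟩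
      have h4 : e (K.mkQ w) ⟨k.1, lt_of_lt_of_le k.2 h1⟩ = β.coord k (K.mkQ w) := by
        simp only [e, LinearMap.pi_apply]
        rw [dif_pos k.2]
      rw [h4] at h3
      rw [map_zero]
      exact h3
    rwa [Submodule.mkQ_apply, Submodule.Quotient.mk_eq_zero] at h2
  · intro h
    have h3 : K.mkQ w = 0 := by
      rw [Submodule.mkQ_apply, Submodule.Quotient.mk_eq_zero]
      exact h
    rw [h3, map_zero]

/-- **Step 0.** If Q1 fails, then for some family over a quasi-projective variety there are nowhere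
zero global sections `ψ` and `u` such that `u` is algebraic everywhere and both the set of points
where `ψ` is algebraic and its complement are infinite. -/
theorem start (h : ¬ Q1 T.toFamilies) :
    ∃ (S : B.Obj) (Y : T.Fam S) (ψ u : Flat T.toFamilies Y), B.QP S ∧
    {p | ψ.val p ∈ T.Alg Y p}.Infinite ∧ {p | ψ.val p ∉ T.Alg Y p}.Infinite ∧
    (∀ p, ψ.val p ≠ 0) ∧ (∀ p, u.val p ≠ 0) ∧ ∀ p, u.val p ∈ T.Alg Y p := by
  unfold Q1 at h
  push Not at h
  obtain ⟨S, X, φ, o, s, ho, hs⟩ := h
  obtain ⟨S', f, hqp, h1, h2⟩ := B.exists_qp S o s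
  obtain ⟨Y, e, he', hg'⟩ := T.addPoint (T.pull f X)
  have he : ∀ b v, v ∈ T.Alg Y b ↔ (e b v).1 ∈ T.Alg (T.pull f X) b := he'
  have hg : ∀ b c g, T.Tr Y b c g → ∃ h, T.Tr (T.pull f X) b c h ∧
      ∀ v, e c (g v) = (h (e b v).1, (e b v).2) := hg'
  have hmo : ∀ p, B.map f p = o → (φ.pull f).val p ∈ T.Alg (T.pull f X) p := by
    intro p hp
    rw [Flat.pull_mem, hp]
    exact ho
  have hms : ∀ p, B.map f p = s → (φ.pull f).val p ∉ T.Alg (T.pull f X) p := by
    intro p hp
    rw [Flat.pull_mem, hp]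
    exact hs
  have hnz : ∀ p, (φ.pull f).val p ≠ 0 := by
    intro p hp
    obtain ⟨q, hq⟩ := h2.nonempty
    obtain ⟨g, hg⟩ := T.paths.tr_nonempty (T.pull f X) p q
    have h3 := (φ.pull f).map hg
    rw [hp, map_zero] at h3
    apply hms q hq
    rw [← h3]
    exact Submodule.zero_mem _
  let ψ : Flat T.toFamilies Y := ⟨fun p => (e p).symm ((φ.pull f).val p, 0), fun p q g hpq => by
    obtain ⟨k, hk, h3⟩ := hg p q g hpq
    apply (e q).injective
    unfold Lin.app
    rw [h3, LinearEquiv.apply_symm_apply, LinearEquiv.apply_symm_apply, (φ.pull f).map hk]⟩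
  let u : Flat T.toFamilies Y := ⟨fun p => (e p).symm (0, 1), fun p q g hpq => by
    obtain ⟨k, hk, h3⟩ := hg p q g hpq
    apply (e q).injective
    unfold Lin.app
    rw [h3, LinearEquiv.apply_symm_apply, LinearEquiv.apply_symm_apply, map_zero]⟩
  have hψ : ∀ p, ψ.val p ∈ T.Alg Y p ↔ (φ.pull f).val p ∈ T.Alg (T.pull f X) p := by
    intro p
    rw [he]
    show ((e p) ((e p).symm ((φ.pull f).val p, 0))).1 ∈ _ ↔ _
    rw [LinearEquiv.apply_symm_apply]
  refine ⟨S', Y, ψ, u, hqp, h1.mono fun p hp => (hψ p).2 (hmo p hp),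
    h2.mono fun p hp => fun h3 => hms p hp ((hψ p).1 h3), ?_, ?_, ?_⟩
  · intro p hp
    have h3 : (e p) ((e p).symm ((φ.pull f).val p, 0)) = 0 := by
      show (e p) (ψ.val p) = 0
      rw [hp, map_zero]
    rw [LinearEquiv.apply_symm_apply] at h3
    exact hnz p (congrArg Prod.fst h3)
  · intro p hp
    have h3 : (e p) ((e p).symm (0, 1)) = 0 := by
      show (e p) (u.val p) = 0
      rw [hp, map_zero]
    rw [LinearEquiv.apply_symm_apply] at h3
    exact one_ne_zero (congrArg Prod.snd h3)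
  · intro p
    rw [he]
    show ((e p) ((e p).symm (0, 1))).1 ∈ _
    rw [LinearEquiv.apply_symm_apply]
    exact Submodule.zero_mem _

/-- **Step 1.** Every pattern occurs if Q1 fails. -/
theorem pattern_of_not (h : ¬ Q1 T.toFamilies) (m : ℕ) (G W : Type) [Group G] [Finite G]
    [AddCommGroup W] [Module ℚ W] [FiniteDimensional ℚ W] (ρ : Rep G W) (K : Fin m → Submodule ℚ W)
    (K₀ : Submodule ℚ W) (hK₀ : ∀ γ, ∀ w ∈ K₀, ρ γ w ∈ K₀) (hle : ∀ i, K₀ ≤ K i) :
    Pattern T.toFamilies m G W ρ K K₀ := by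
  classical
  obtain ⟨S, X, ψ, u, hqp, h1, h2, hψ0, hu0, hu⟩ := start h
  -- the functionals
  let n := Module.finrank ℚ W + 1
  let K' : Option (Option (Fin m)) → Submodule ℚ W := fun i => i.elim ⊥ fun j => j.elim K₀ K
  choose L hL using fun i => exists_ker (K' i) n (Nat.le_succ _)
  -- the index set
  let J := Option (Option (Fin m)) × Fin n
  let I := G × J
  have : Nonempty (Fin n) := ⟨⟨0, Nat.succ_pos _⟩⟩
  have : Nonempty J := ⟨(none, Classical.arbitrary _)⟩
  have : Nonempty I := ⟨(1, Classical.arbitrary _)⟩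
  have : Finite I := inferInstanceAs (Finite (G × (Option (Option (Fin m)) × Fin n)))
  obtain ⟨enc, henc⟩ := exists_injective_nat I
  obtain ⟨encm, hencm⟩ := exists_injective_nat (Option (Fin m))
  -- the points
  let a := h1.natEmbedding
  let c := h2.natEmbedding
  let t : Option (Fin m) → I → B.Pt S := fun i x =>
    if x.1 = 1 ∧ x.2.1 = some i then (c (Nat.pair (enc x) (encm i)) : B.Pt S)
    else (a (Nat.pair (enc x) (encm i)) : B.Pt S)
  have hta : ∀ i x, ¬ (x.1 = 1 ∧ x.2.1 = some i) → ψ.val (t i x) ∈ T.Alg X (t i x) := by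
    intro i x hx
    have : t i x = a (Nat.pair (enc x) (encm i)) := if_neg hx
    rw [this]
    exact (a _).2
  have htc : ∀ i x, (x.1 = 1 ∧ x.2.1 = some i) → ψ.val (t i x) ∉ T.Alg X (t i x) := by
    intro i x hx
    have : t i x = c (Nat.pair (enc x) (encm i)) := if_pos hx
    rw [this]
    exact (c _).2
  have htinj : ∀ i j x y, t i x = t j y → i = j ∧ x = y := by
    intro i j x y hxy
    by_cases hx : x.1 = 1 ∧ x.2.1 = some i <;> by_cases hy : y.1 = 1 ∧ y.2.1 = some j
    · have e1 : t i x = c (Nat.pair (enc x) (encm i)) := if_pos hx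
      have e2 : t j y = c (Nat.pair (enc y) (encm j)) := if_pos hy
      rw [e1, e2] at hxy
      have e3 := c.injective (Subtype.ext hxy)
      rw [Nat.pair_eq_pair] at e3
      exact ⟨hencm e3.2, henc e3.1⟩
    · exact absurd (hta j y hy) (hxy ▸ htc i x hx)
    · exact absurd (hta i x hx) (hxy ▸ htc j y hy)
    · have e1 : t i x = a (Nat.pair (enc x) (encm i)) := if_neg hx
      have e2 : t j y = a (Nat.pair (enc y) (encm j)) := if_neg hy
      rw [e1, e2] at hxy
      have e3 := a.injective (Subtype.ext hxy)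
      rw [Nat.pair_eq_pair] at e3
      exact ⟨hencm e3.2, henc e3.1⟩
  let τ : Option (Fin m) → (I ↪ B.Pt S) := fun i => ⟨t i, fun x y hxy => (htinj i i x y hxy).2⟩
  have hτ : ∀ i x, τ i x = t i x := fun i x => rfl
  -- the group
  let μ : G →* Equiv.Perm I :=
    { toFun := fun γ => (Equiv.mulLeft γ).prodCongr (Equiv.refl J)
      map_one' := by
        ext x : 1
        simp
      map_mul' := by
        intro γ γ'
        ext x : 1
        exact Prod.ext (mul_assoc γ γ' x.1) rfl }
  have hμ : ∀ γ (x : I), μ γ x = (γ * x.1, x.2) := fun γ x => rfl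
  obtain ⟨U, Z, b, Φ, hsurj, hB, hA, hT, hT'⟩ := confs T X I μ.range hqp ⟨τ none⟩
  -- the embedding
  let sec : Option (Option (Fin m)) → Flat T.toFamilies X := fun i => i.elim u fun _ => ψ
  let F : ∀ s : I ↪ B.Pt S, W →ₗ[ℚ] (∀ x, T.V X (s x)) := fun s => LinearMap.pi fun x =>
    LinearMap.toSpanSingleton ℚ _ ((sec x.2.1).val (s x)) ∘ₗ
      (LinearMap.proj x.2.2 ∘ₗ (L x.2.1 ∘ₗ ρ x.1⁻¹))
  have hF : ∀ s w x, F s w x = (L x.2.1 (ρ x.1⁻¹ w) x.2.2) • (sec x.2.1).val (s x) :=
    fun s w x => rfl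
  let E : ∀ s : I ↪ B.Pt S, W →ₗ[ℚ] T.V Z (b s) := fun s => (Φ s).symm.toLinearMap ∘ₗ F s
  have hE : ∀ s w, Φ s (E s w) = F s w := fun s w => (Φ s).apply_symm_apply _
  have hequi : ∀ (s t : I ↪ B.Pt S) (g : T.V Z (b s) ≃ₗ[ℚ] T.V Z (b t)) (γ : G)
      (k : ∀ x, T.V X (s x) ≃ₗ[ℚ] T.V X (t (μ γ x))),
      (∀ x, T.Tr X (s x) (t (μ γ x)) (k x)) →
      (∀ u x, Φ t (g u) (μ γ x) = k x (Φ s u x)) →
      ∀ w, g (E s w) = E t (ρ γ w) := by
    intro s t g γ k hk hg w
    apply (Φ t).injective
    funext y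
    obtain ⟨x, rfl⟩ := (μ γ).surjective y
    have h3 : ρ (γ * x.1)⁻¹ (ρ γ w) = ρ x.1⁻¹ w := by
      rw [mul_inv_rev, map_mul, Module.End.mul_apply, ← Module.End.mul_apply (ρ γ⁻¹), ← map_mul,
        inv_mul_cancel, map_one, Module.End.one_apply]
    rw [hg, hE, hE, hF, hF, map_smul, (sec x.2.1).map (hk x)]
    show L x.2.1 (ρ x.1⁻¹ w) x.2.2 • (sec x.2.1).val (t (μ γ x)) =
      L x.2.1 (ρ (γ * x.1)⁻¹ (ρ γ w)) x.2.2 • (sec x.2.1).val (t (μ γ x))
    rw [h3]
  have hEinj : ∀ s, Function.Injective (E s) := by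
    intro s
    rw [injective_iff_map_eq_zero]
    intro w hw
    have h3 : F s w = 0 := by rw [← hE, hw, map_zero]
    have h4 : w ∈ K' none := by
      rw [← hL]
      funext k
      have h5 := congrFun h3 ((1 : G), ((none, k) : J))
      rw [hF] at h5
      rcases smul_eq_zero.1 h5 with h6 | h6
      · simpa using h6
      · exact absurd h6 (hu0 _)
    exact (Submodule.mem_bot ℚ).1 h4
  have hEalg : ∀ i w, E (τ i) w ∈ T.Alg Z (b (τ i)) ↔ w ∈ K' (some i) := by
    intro i w
    rw [hA]
    constructor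
    · intro h3
      rw [← hL]
      funext k
      have h5 := h3 ((1 : G), ((some i, k) : J))
      rw [hE, hF] at h5
      by_contra h6
      have h7 : L (some i) (ρ (1 : G)⁻¹ w) k ≠ 0 := by simpa using h6
      have h8 := (Submodule.smul_mem_iff _ h7).1 h5
      exact htc i _ ⟨rfl, rfl⟩ h8
    · intro hw x
      rw [hE, hF]
      by_cases hx : x.1 = 1 ∧ x.2.1 = some i
      · have h3 : L x.2.1 (ρ x.1⁻¹ w) = 0 := by
          rw [hx.1, hx.2, inv_one, map_one, Module.End.one_apply, hL]
          exact hw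
        rw [h3, Pi.zero_apply, zero_smul]
        exact Submodule.zero_mem _
      · apply Submodule.smul_mem
        have h4 : ∀ j, ψ.val (τ i x) ∈ T.Alg X (τ i x) →
            (sec j).val (τ i x) ∈ T.Alg X (τ i x) := by
          intro j h5
          cases j with
          | none => exact hu _
          | some j => exact h5
        exact h4 _ (hta i x hx)
  have hE0 : ∀ s, ∀ w ∈ K₀, E s w ∈ T.Alg Z (b s) := by
    intro s w hw
    rw [hA]
    intro x
    rw [hE, hF]
    obtain ⟨g, j, k⟩ := x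
    cases j with
    | none => exact Submodule.smul_mem _ _ (hu _)
    | some j =>
      have h3 : L (some j) (ρ g⁻¹ w) = 0 := by
        rw [hL]
        have h4 := hK₀ g⁻¹ w hw
        cases j with
        | none => exact h4
        | some i => exact hle i h4
      have h4 : L (some j) (ρ g⁻¹ w) k = 0 := by rw [h3, Pi.zero_apply]
      show L (some j) (ρ g⁻¹ w) k • _ ∈ _
      rw [h4, zero_smul]
      exact Submodule.zero_mem _
  refine ⟨U, Z, fun i => b (τ (some i)), fun i => E (τ (some i)), ?_, fun i => hEinj _, ?_, ?_,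
    fun i w => hEalg _ w, ?_⟩
  · intro i j hij
    obtain ⟨σ, -, h3⟩ := hB _ _ hij
    exact Option.some_injective _ (htinj _ _ _ _ (h3 (Classical.arbitrary I))).1
  · intro i j g hg
    obtain ⟨σ, ⟨γ, rfl⟩, k, hk, h3⟩ := hT _ _ g hg
    exact ⟨γ, hequi _ _ g γ k hk h3⟩
  · intro i j γ
    obtain ⟨g, hg, k, hk, h3⟩ := hT' (τ (some i)) (τ (some j)) (μ γ) ⟨γ, rfl⟩
    exact ⟨g, hg, hequi _ _ g γ k hk h3⟩
  · intro i w
    constructor
    · intro h3
      obtain ⟨g, hg, k, hk, h4⟩ := hT' (τ (some i)) (τ none) (μ 1) ⟨1, rfl⟩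
      have h5 : g (E (τ (some i)) w) ∈ T.Alg Z (b (τ none)) := h3 _ g hg
      rw [hequi _ _ g 1 k hk h4, map_one, Module.End.one_apply, hEalg] at h5
      exact h5
    · intro hw c g hg
      obtain ⟨s, rfl⟩ := hsurj c
      obtain ⟨σ, ⟨γ, rfl⟩, k, hk, h3⟩ := hT _ _ g hg
      show g (E (τ (some i)) w) ∈ T.Alg Z (b s)
      rw [hequi _ _ g γ k hk h3]
      exact hE0 s _ (hK₀ γ w hw)

/-- **Step 2.** Q1 implies that parallel transport preserves algebraic classes with finite
orbits. -/
theorem transport_of_q1 (h : Q1 T.toFamilies) {S : B.Obj} (X : T.Fam S) (b c : B.Pt S) (v : T.V X b)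
    (hfin : (orbit T.toFamilies X b v).Finite) (hv : v ∈ T.Alg X b) (g : T.V X b ≃ₗ[ℚ] T.V X c)
    (hg : T.Tr X b c g) : g v ∈ T.Alg X c := by
  obtain ⟨S', f, p, hp, v', hv', hinv, hlift⟩ := T.covers X b v hfin
  obtain ⟨φ, hφp, hφ⟩ := exists_flat (T.pull f X) p v' hinv
  obtain ⟨q, hq, g', hg', h1⟩ := hlift c g hg
  have h2 : φ.val p ∈ T.Alg (T.pull f X) p := by
    rw [hφp, T.baseChange.alg_iso f X hp, hv']
    exact hv
  have h3 := h S' (T.pull f X) φ p q h2
  rw [hφ q g' hg', T.baseChange.alg_iso f X hq] at h3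
  have h4 : (T.iso f X hq).app (g' v') = g v := h1
  rw [h4] at h3
  exact h3

/-- **Step 3.** If Q1 holds, then in each pattern all `K i` are equal to `L`. -/
theorem eq_of_q1 (h : Q1 T.toFamilies) {m : ℕ} {G W : Type} [Group G] [Finite G] [AddCommGroup W]
    [Module ℚ W] (ρ : Rep G W) (K : Fin m → Submodule ℚ W) (L : Submodule ℚ W)
    (hP : Pattern T.toFamilies m G W ρ K L) (i : Fin m) : K i = L := by
  obtain ⟨S, X, b, f, -, -, h1, h2, hK, hL⟩ := hP
  ext w
  rw [← hL i w]
  constructor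
  · intro hw c g hg
    have hfin : (orbit T.toFamilies X (b i) (f i w)).Finite := by
      refine (Set.finite_range (fun γ' : G => f i (ρ γ' w))).subset ?_
      rintro u ⟨g', hg', rfl⟩
      obtain ⟨γ', h4⟩ := h1 i i g' hg'
      exact ⟨γ', (h4 w).symm⟩
    exact transport_of_q1 h X (b i) c (f i w) hfin ((hK i w).2 hw) g hg
  · intro h3
    rw [← hK i w]
    exact h3 _ _ (T.paths.tr_refl X (b i))

/-- the permutation representation of the symmetric group on two letters -/
def permRep : Rep (Equiv.Perm (Fin 2)) (Fin 2 → ℚ) where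
  toFun σ := LinearMap.funLeft ℚ ℚ (σ⁻¹ : Equiv.Perm (Fin 2))
  map_one' := by
    ext w i
    simp [LinearMap.funLeft_apply]
  map_mul' σ τ := by
    ext w i
    simp [LinearMap.funLeft_apply]

theorem permRep_single (σ : Equiv.Perm (Fin 2)) (i : Fin 2) :
    permRep σ (Pi.single i 1) = Pi.single (σ i) 1 := by
  funext j
  show (Pi.single i (1 : ℚ) : Fin 2 → ℚ) (σ⁻¹ j) = _
  by_cases h : j = σ i
  · subst h
    simp
  · rw [Pi.single_eq_of_ne h, Pi.single_eq_of_ne]
    intro h'
    apply h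
    rw [← h']
    simp

/-- If Q1 fails, some monodromy orbit consists of two classes, one of which is algebraic. -/
theorem orbit_two (h : ¬ Q1 T.toFamilies) : ∃ (S : B.Obj) (X : T.Fam S) (b : B.Pt S) (v w : T.V X b), v ≠ w ∧
    v ∈ T.Alg X b ∧ w ∉ T.Alg X b ∧ orbit T.toFamilies X b v = {v, w} := by
  obtain ⟨S, X, b, f, -, hf, h1, h2, hK, -⟩ := pattern_of_not h 1 (Equiv.Perm (Fin 2))
    (Fin 2 → ℚ) permRep (fun _ => LinearMap.ker (LinearMap.proj (1 : Fin 2))) ⊥
    (by
      intro γ w hw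
      rw [(Submodule.mem_bot ℚ).1 hw, map_zero]
      exact Submodule.zero_mem _) (fun _ => bot_le)
  have hact : ∀ (σ : Equiv.Perm (Fin 2)) (i : Fin 2),
      Rep.act permRep σ (Pi.single i 1) = Pi.single (σ i) 1 := permRep_single
  refine ⟨S, X, b 0, (f 0).app (Pi.single 0 1), (f 0).app (Pi.single 1 1), ?_, ?_, ?_, ?_⟩
  · intro h3
    have h4 := congrFun (hf 0 h3) 0
    simp at h4
  · rw [hK]
    simp
  · rw [hK]
    simp
  · ext u
    simp only [Set.mem_insert_iff, Set.mem_singleton_iff]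
    constructor
    · rintro ⟨g, hg, rfl⟩
      obtain ⟨σ, h3⟩ := h1 0 0 g hg
      rw [h3, hact]
      have h4 : σ 0 = 0 ∨ σ 0 = 1 := by omega
      rcases h4 with h4 | h4
      · left
        rw [h4]
      · right
        rw [h4]
    · rintro (rfl | rfl)
      · exact ⟨_, T.paths.tr_refl X (b 0), rfl⟩
      · obtain ⟨g, hg, h3⟩ := h2 0 0 (Equiv.swap 0 1)
        refine ⟨g, hg, ?_⟩
        rw [h3, hact, Equiv.swap_apply_left]

/-- **Theorem.** (a) If Q1 fails, then every pattern occurs: for every finite group `G`, every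
finite-dimensional rational representation `ρ` of `G` on `W`, all subspaces `K 1, …, K m` of `W` and
every `G`-stable subspace `L` of all of them, the local system of some family contains a local
system with fibre `W` and monodromy `ρ`, in which the algebraic classes at `m` points are exactly
`K 1, …, K m`, and the classes that are algebraic everywhere are those in `L`. So Q1 is equivalent
to each of the following statements. (b) One pattern with `K i` different from `L` for some `i` (it
may be chosen at will) does not occur. (c) The fundamental group preserves the set of the algebraic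
classes with finite orbits. (d) The sum over the (finite) orbit of an algebraic class is
algebraic. -/
theorem result (B : Bases) (T : Theory B) :
    (¬ Q1 T.toFamilies → ∀ (m : ℕ) (G W : Type) [Group G] [Finite G] [AddCommGroup W] [Module ℚ W]
      [FiniteDimensional ℚ W] (ρ : Rep G W) (K : Fin m → Submodule ℚ W)
      (L : Submodule ℚ W), Admissible ρ K L → Pattern T.toFamilies m G W ρ K L) ∧
    (∀ (m : ℕ) (G W : Type) [Group G] [Finite G] [AddCommGroup W] [Module ℚ W]
      [FiniteDimensional ℚ W] (ρ : Rep G W) (K : Fin m → Submodule ℚ W)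
      (L : Submodule ℚ W), Admissible ρ K L → (∃ i, K i ≠ L) →
      (Q1 T.toFamilies ↔ ¬ Pattern T.toFamilies m G W ρ K L)) ∧
    (Q1 T.toFamilies ↔ OrbitsStable T.toFamilies) ∧
    (Q1 T.toFamilies ↔ OrbitSums T.toFamilies) := by
  classical
  refine ⟨fun h m G W _ _ _ _ _ ρ K L h1 => pattern_of_not h m G W ρ K L h1.1 h1.2, ?_, ⟨?_, ?_⟩,
    ⟨?_, ?_⟩⟩
  · rintro m G W _ _ _ _ _ ρ K L ⟨hL, hle⟩ ⟨i, hi⟩
    constructor
    · intro h hP
      exact hi (eq_of_q1 h ρ K L hP i)
    · intro h
      by_contra hq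
      exact h (pattern_of_not hq m G W ρ K L hL hle)
  · rintro h S X b v hfin hv w ⟨g, hg, rfl⟩
    exact transport_of_q1 h X b b v hfin hv g hg
  · intro h
    by_contra hq
    obtain ⟨S, X, b, v, w, -, hv, hw, ho⟩ := orbit_two hq
    exact hw (h S X b v (by rw [ho]; exact Set.toFinite _) hv w (by rw [ho]; simp))
  · intro h S X b v hfin hv
    refine Submodule.sum_mem _ fun w hw => ?_
    obtain ⟨g, hg, rfl⟩ := hfin.mem_toFinset.1 hw
    exact transport_of_q1 h X b b v hfin hv g hg
  · intro h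
    by_contra hq
    obtain ⟨S, X, b, v, w, hne, hv, hw, ho⟩ := orbit_two hq
    have hfin : (orbit T.toFamilies X b v).Finite := by rw [ho]; exact Set.toFinite _
    have h1 := h S X b v hfin hv
    have h2 : hfin.toFinset = {v, w} := by
      ext x
      rw [hfin.mem_toFinset, ho]
      simp
    rw [h2, Finset.sum_pair hne] at h1
    exact hw (by simpa using Submodule.sub_mem _ h1 hv)

end Pool.Agent.Results.MP_298761_ag.FiniteMonodromy
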